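import Pool.Agent.Helper51.SDL.Goals
import Pool.Agent.Helper33.REC.KBRK

/-!
# SDL-FIN: finiteness of the ray class group
-/

set_option autoImplicit false

namespace Pool.Agent.Helper3.SDL.FIN

open NumberField Module IsDedekindDomain FractionalIdeal
open Pool.Agent.Helper51.RP Pool.Agent.Helper51.REC Pool.Agent.Helper16.SD Pool.Agent.Helper51.SDL
open scoped nonZeroDivisors

section val

variable {M : Type} [Field M] [NumberField M]

theorem ordv_int (v : HeightOneSpectrum (𝓞 M)) (r : 𝓞 M) (hr : r ≠ 0) :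
    ordv v (algebraMap (𝓞 M) M r) = count M v (spanSingleton (𝓞 M)⁰ (algebraMap (𝓞 M) M r)) := by
  classical
  rw [← coeIdeal_span_singleton, count_coe M v (by simpa using hr), ordv,
    v.valuation_of_algebraMap, v.intValuation_if_neg hr, WithZero.log_exp, neg_neg]

theorem ordv_eq_count (v : HeightOneSpectrum (𝓞 M)) (x : M) (hx : x ≠ 0) :
    ordv v x = count M v (spanSingleton (𝓞 M)⁰ x) := by
  obtain ⟨a, b, hb, rfl⟩ := IsFractionRing.div_surjective (A := 𝓞 M) x
  have hb0 : b ≠ 0 := nonZeroDivisors.ne_zero hb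
  have ha0 : a ≠ 0 := by
    rintro rfl
    simp at hx
  have hA : algebraMap (𝓞 M) M a ≠ 0 := by simpa using ha0
  have hB : algebraMap (𝓞 M) M b ≠ 0 := by simpa using hb0
  have h1 : ordv v (algebraMap (𝓞 M) M a / algebraMap (𝓞 M) M b) =
      ordv v (algebraMap (𝓞 M) M a) - ordv v (algebraMap (𝓞 M) M b) := by
    unfold ordv
    rw [map_div₀, WithZero.log_div ((Valuation.ne_zero_iff _).2 hA)
      ((Valuation.ne_zero_iff _).2 hB)]
    ring
  have h2 : spanSingleton (𝓞 M)⁰ (algebraMap (𝓞 M) M a / algebraMap (𝓞 M) M b) *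
      spanSingleton (𝓞 M)⁰ (algebraMap (𝓞 M) M b) = spanSingleton (𝓞 M)⁰ (algebraMap (𝓞 M) M a) := by
    rw [spanSingleton_mul_spanSingleton, div_mul_cancel₀ _ hB]
  have h3 := count_mul M v (I := spanSingleton (𝓞 M)⁰ (algebraMap (𝓞 M) M a / algebraMap (𝓞 M) M b))
    (I' := spanSingleton (𝓞 M)⁰ (algebraMap (𝓞 M) M b))
    (by rw [Ne, spanSingleton_eq_zero_iff]; exact hx)
    (by rw [Ne, spanSingleton_eq_zero_iff]; exact hB)
  rw [h2] at h3
  rw [h1, ordv_int v a ha0, ordv_int v b hb0, h3]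
  ring

theorem val_one_of_ordv (v : HeightOneSpectrum (𝓞 M)) (x : Mˣ) (h : ordv v (x : M) = 0) :
    v.valuation M (x : M) = 1 := by
  have h0 : v.valuation M (x : M) ≠ 0 := (Valuation.ne_zero_iff _).2 x.ne_zero
  unfold ordv at h
  have h1 : WithZero.log (v.valuation M (x : M)) = 0 := by linarith
  rw [← WithZero.exp_log h0, h1, WithZero.exp_zero]

theorem class_step (T : Set (HeightOneSpectrum (𝓞 M))) :
    ∃ cl : (PF T →₀ ℤ) → ClassGroup (𝓞 M), ∀ d d', cl d = cl d' →
      ∃ x : Mˣ, (∀ w ∈ T, ordv w (x : M) = 0) ∧ ∀ w : PF T, ordv w.1 (x : M) = d w - d' w := by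
  classical
  let e : PF T ↪ HeightOneSpectrum (𝓞 M) := ⟨Subtype.val, Subtype.val_injective⟩
  let J : (PF T →₀ ℤ) → FractionalIdeal (𝓞 M)⁰ M := fun d =>
    (d.embDomain e).prod (fun v k => (v.asIdeal : FractionalIdeal (𝓞 M)⁰ M) ^ k)
  have hJ0 : ∀ d, J d ≠ 0 := by
    intro d
    simp only [J]
    rw [Finsupp.prod, Finset.prod_ne_zero_iff]
    intro v _
    exact zpow_ne_zero _ (coeIdeal_ne_zero.mpr v.ne_bot)
  have hJc : ∀ d w, count M w (J d) = d.embDomain e w := fun d w => count_finsuppProd M w _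
  refine ⟨fun d => (ClassGroup.equiv M).symm (QuotientGroup.mk (Units.mk0 (J d) (hJ0 d))), ?_⟩
  intro d d' hdd
  have h1 := (ClassGroup.equiv M).symm.injective hdd
  rw [QuotientGroup.eq] at h1
  obtain ⟨x, hx⟩ := h1
  have e2 : Units.mk0 (J d') (hJ0 d') = (Units.mk0 (J d) (hJ0 d)) * toPrincipalIdeal (𝓞 M) M x := by
    rw [hx, mul_inv_cancel_left]
  have e3 : J d' = J d * spanSingleton (𝓞 M)⁰ (x : M) := by
    have := congrArg (fun u : (FractionalIdeal (𝓞 M)⁰ M)ˣ => (u : FractionalIdeal (𝓞 M)⁰ M)) e2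
    simpa using this
  have hx0 : (x : M) ≠ 0 := x.ne_zero
  have hm : ∀ w, d'.embDomain e w = d.embDomain e w + ordv w (x : M) := by
    intro w
    have := count_mul M w (hJ0 d) (I' := spanSingleton (𝓞 M)⁰ (x : M))
      (by rw [Ne, spanSingleton_eq_zero_iff]; exact hx0)
    rw [← e3, hJc, hJc, ← ordv_eq_count w (x : M) hx0] at this
    exact this
  have hinv : ∀ w, ordv w (((x⁻¹ : Mˣ) : M)) = - ordv w (x : M) := by
    intro w
    unfold ordv
    rw [Units.val_inv_eq_inv_val, map_inv₀, WithZero.log_inv]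
  refine ⟨x⁻¹, ?_, ?_⟩
  · intro w hw
    have h2 := hm w
    have hnr : w ∉ Set.range e := by
      rintro ⟨w', rfl⟩
      exact w'.2 hw
    rw [Finsupp.embDomain_notin_range _ _ _ hnr, Finsupp.embDomain_notin_range _ _ _ hnr] at h2
    rw [hinv]
    linarith
  · intro w
    have h2 := hm w.1
    have h3 : ∀ f : PF T →₀ ℤ, f.embDomain e w.1 = f w := fun f => Finsupp.embDomain_apply_self e f w
    rw [h3, h3] at h2
    rw [hinv]
    linarith

end val

theorem t : S_FIN := by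
  intro p hp L _ _ T hT V M hV φ hφ
  classical
  obtain ⟨cl, hcl⟩ := class_step (M := L) T
  have hp0 : (p : L) ≠ 0 := by
    exact_mod_cast hp.out.ne_zero
  have hTf : T.Finite := by
    refine (Pool.Agent.Helper33.REC.finite_ordv (Units.mk0 (p : L) hp0)).subset ?_
    intro w hw h
    have h1 := val_one_of_ordv w _ h
    exact absurd h1 (hT w hw).ne
  have hfin : Finite (𝓞 L ⧸ (Ideal.span {((p : 𝓞 L)) ^ M} : Ideal (𝓞 L))) := by
    apply Ideal.finiteQuotientOfFreeOfNeBot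
    rw [Ne, Ideal.span_singleton_eq_bot]
    apply pow_ne_zero
    exact_mod_cast hp.out.ne_zero
  haveI : Finite T := hTf.to_subtype
  have happ : ∀ (x : Lˣ) (w : T), ∃ y : 𝓞 L, w.1.valuation L (x : L) ≤ 1 →
      w.1.valuation L (algebraMap (𝓞 L) L y - x) ≤ w.1.valuation L (p : L) ^ M := by
    intro x w
    by_cases h : w.1.valuation L (x : L) ≤ 1
    · have h0 : w.1.valuation L (p : L) ^ M ≠ 0 := pow_ne_zero _ ((Valuation.ne_zero_iff _).2 hp0)
      obtain ⟨y, hy⟩ := w.1.exists_valuation_sub_lt_of_integer h (Units.mk0 _ h0)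
      exact ⟨y, fun _ => hy.le⟩
    · exact ⟨0, fun h' => absurd h' h⟩
  choose Y hY using happ
  let rep : (PF T →₀ ℤ) → (PF T →₀ ℤ) := fun d => Function.invFun cl (cl d)
  have hrep : ∀ d, cl d = cl (rep d) := fun d => (Function.invFun_eq ⟨d, rfl⟩).symm
  have hx : ∀ d, ∃ x : Lˣ, (∀ w ∈ T, ordv w (x : L) = 0) ∧
      ∀ w : PF T, ordv w.1 (x : L) = d w - rep d w := fun d => hcl d (rep d) (hrep d)
  choose xx hx1 hx2 using hx
  let c : (PF T →₀ ℤ) → ClassGroup (𝓞 L) ×
      (T → 𝓞 L ⧸ (Ideal.span {((p : 𝓞 L)) ^ M} : Ideal (𝓞 L))) :=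
    fun d => (cl d, fun w => Ideal.Quotient.mk _ (Y (xx d) w))
  have key : ∀ d d', c d = c d' → Multiplicative.ofAdd (d - d') ∈ φ.range := by
    intro d d' hc
    have hc1 : cl d = cl d' := congrArg Prod.fst hc
    have hc2 : ∀ w : T, Y (xx d) w - Y (xx d') w ∈ (Ideal.span {((p : 𝓞 L)) ^ M} : Ideal (𝓞 L)) := by
      intro w
      have := congrFun (congrArg Prod.snd hc) w
      exact (Ideal.Quotient.eq).1 this
    have hrr : rep d = rep d' := by
      simp only [rep, hc1]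
    have hcong : Cong p T M (((xx d / xx d' : Lˣ)) : L) := by
      intro w hw
      have v1 : w.valuation L (xx d : L) = 1 := val_one_of_ordv w _ (hx1 d w hw)
      have v2 : w.valuation L (xx d' : L) = 1 := val_one_of_ordv w _ (hx1 d' w hw)
      have e1 : (((xx d / xx d' : Lˣ)) : L) - 1 = ((xx d : L) - xx d') / xx d' := by
        rw [Units.val_div_eq_div_val, sub_div, div_self (xx d').ne_zero]
      rw [e1, map_div₀, v2, _root_.div_one]
      have a1 := hY (xx d) ⟨w, hw⟩ v1.le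
      have a2 := hY (xx d') ⟨w, hw⟩ v2.le
      have a3 : w.valuation L (algebraMap (𝓞 L) L (Y (xx d) ⟨w, hw⟩) -
          algebraMap (𝓞 L) L (Y (xx d') ⟨w, hw⟩)) ≤ w.valuation L (p : L) ^ M := by
        obtain ⟨z, hz⟩ := Ideal.mem_span_singleton'.1 (hc2 ⟨w, hw⟩)
        rw [← map_sub, ← hz, map_mul, map_mul, map_pow, map_pow, map_natCast]
        exact mul_le_of_le_one_left' (w.valuation_le_one z)
      have e2 : (xx d : L) - xx d' = -(algebraMap (𝓞 L) L (Y (xx d) ⟨w, hw⟩) - xx d) +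
          ((algebraMap (𝓞 L) L (Y (xx d) ⟨w, hw⟩) - algebraMap (𝓞 L) L (Y (xx d') ⟨w, hw⟩)) +
            (algebraMap (𝓞 L) L (Y (xx d') ⟨w, hw⟩) - xx d')) := by ring
      rw [e2]
      refine Valuation.map_add_le _ ?_ (Valuation.map_add_le _ a3 a2)
      rw [Valuation.map_neg]
      exact a1
    refine ⟨⟨xx d / xx d', hV _ hcong⟩, ?_⟩
    apply Multiplicative.toAdd.injective
    ext w
    rw [hφ]
    show ordv w.1 (((xx d / xx d' : Lˣ)) : L) = (d - d') w
    have e3 : ordv w.1 (((xx d / xx d' : Lˣ)) : L) = ordv w.1 (xx d : L) - ordv w.1 (xx d' : L) := by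
      unfold ordv
      rw [Units.val_div_eq_div_val, map_div₀, WithZero.log_div ((Valuation.ne_zero_iff _).2 (xx d).ne_zero)
        ((Valuation.ne_zero_iff _).2 (xx d').ne_zero)]
      ring
    rw [e3, hx2, hx2, hrr, Finsupp.sub_apply]
    ring
  haveI : Finite (Multiplicative (PF T →₀ ℤ) ⧸ φ.range) := by
    haveI : Finite (ClassGroup (𝓞 L) ×
      (T → 𝓞 L ⧸ (Ideal.span {((p : 𝓞 L)) ^ M} : Ideal (𝓞 L)))) := inferInstance
    apply Finite.of_injective (fun q : Multiplicative (PF T →₀ ℤ) ⧸ φ.range =>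
      c (Multiplicative.toAdd q.out))
    intro q q' hqq
    have h1 := key _ _ hqq
    rw [← QuotientGroup.out_eq' q, ← QuotientGroup.out_eq' q']
    symm
    rw [QuotientGroup.eq]
    have e4 : (q'.out)⁻¹ * q.out = Multiplicative.ofAdd (Multiplicative.toAdd q.out -
        Multiplicative.toAdd q'.out) := by
      rw [mul_comm, ofAdd_sub, ofAdd_toAdd, ofAdd_toAdd, div_eq_mul_inv]
    rw [e4]
    exact h1
  exact Subgroup.index_ne_zero_of_finite

end Pool.Agent.Helper3.SDL.FIN
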